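import Pool.Agent.P8H82.JG.Stm
import Pool.Agent.Y382.Gold

/-!
# Packages EXI, CPX, NRM, INT, CONE
-/

set_option autoImplicit false
set_option linter.unusedSectionVars false

namespace Pool.Agent.P8H52.JG

open NumberField IsDedekindDomain MeasureTheory Filter Topology
open Pool.Agent.P8H82.JG

variable {K : Type} [Field K] [NumberField K] {σ τ : K →+* ℝ}

lemma sqrt5_pos : 0 < √(5 : ℝ) := Real.sqrt_pos.2 (by norm_num)

lemma sqrt5_sq : √(5 : ℝ) * √5 = 5 := Real.mul_self_sqrt (by norm_num)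

/-- the value of a real embedding -/
lemma emb_val {s : K} (ρ : K →+* ℝ) (u v : ℚ) : ρ (u + v * s) = u + v * ρ s := by
  rw [map_add, map_mul, map_ratCast, map_ratCast]

/-- the square root of 5 -/
lemma exists_root (h : Gold K σ τ) : ∃ s : K, s ^ 2 = 5 ∧ σ s = √5 ∧ τ s = -√5 := by
  obtain ⟨s, hs⟩ := h.five
  have hval : ∀ ρ : K →+* ℝ, ρ s = √5 ∨ ρ s = -√5 := by
    intro ρ
    have h1 : (ρ s) ^ 2 = √5 ^ 2 := by
      rw [← map_pow, hs, map_ofNat, Real.sq_sqrt (by norm_num)]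
    exact sq_eq_sq_iff_eq_or_eq_neg.1 h1
  have hne : σ s ≠ τ s := by
    intro he
    apply h.ne
    ext x
    obtain ⟨u, v, rfl⟩ := Pool.Agent.Y382.Gold.exists_coord h.rank hs x
    rw [emb_val, emb_val, he]
  rcases hval σ with h1 | h1 <;> rcases hval τ with h2 | h2
  · exact absurd (h1.trans h2.symm) hne
  · exact ⟨s, hs, h1, h2⟩
  · exact ⟨-s, by rw [neg_sq, hs], by rw [map_neg, h1, neg_neg], by rw [map_neg, h2]⟩
  · exact absurd (h1.trans h2.symm) hne

/-- **EXI** -/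
theorem exi : S_EXI := by
  intro K _ _ hK ⟨s, hs⟩
  have hreal : ∀ φ : K →+* ℂ, ComplexEmbedding.IsReal φ := by
    intro φ
    rw [ComplexEmbedding.isReal_iff]
    ext x
    rw [ComplexEmbedding.conjugate_coe_eq]
    obtain ⟨u, v, rfl⟩ := Pool.Agent.Y382.Gold.exists_coord hK hs x
    have h1 : (φ s) ^ 2 = ((√5 : ℝ) : ℂ) ^ 2 := by
      rw [← map_pow, hs, map_ofNat, ← Complex.ofReal_pow, Real.sq_sqrt (by norm_num)]
      simp
    have h2 : (starRingEnd ℂ) (φ s) = φ s := by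
      rcases sq_eq_sq_iff_eq_or_eq_neg.1 h1 with h | h <;> rw [h] <;> simp
    rw [map_add, map_mul, map_ratCast, map_ratCast, map_add, map_mul, h2, map_ratCast, map_ratCast]
  have hcard : Fintype.card (K →+* ℂ) = 2 := by
    rw [Embeddings.card K ℂ, hK]
  obtain ⟨φ, ψ, hne⟩ := Fintype.one_lt_card_iff.1 (by omega : 1 < Fintype.card (K →+* ℂ))
  refine ⟨(hreal φ).embedding, (hreal ψ).embedding, fun h => hne ?_⟩
  ext x
  rw [← (hreal φ).coe_embedding_apply, ← (hreal ψ).coe_embedding_apply, h]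

/-- **CPX** -/
theorem cpx : S_CPX := by
  intro K _ _ σ τ h F
  classical
  have hne : Complex.ofRealHom.comp σ ≠ Complex.ofRealHom.comp τ := by
    intro he
    apply h.ne
    ext x
    have := RingHom.congr_fun he x
    exact Complex.ofReal_injective this
  have hcard : Fintype.card (K →+* ℂ) = 2 := by
    rw [Embeddings.card K ℂ, h.rank]
  have huniv : (Finset.univ : Finset (K →+* ℂ)) =
      {Complex.ofRealHom.comp σ, Complex.ofRealHom.comp τ} := by
    symm
    apply Finset.eq_univ_of_card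
    rw [Finset.card_pair hne, hcard]
  rw [huniv, Finset.prod_pair hne]

lemma norm_val (h : Gold K σ τ) (a : K) : ((Algebra.norm ℚ a : ℚ) : ℝ) = σ a * τ a := by
  obtain ⟨s, hs, h1, h2⟩ := exists_root h
  obtain ⟨u, v, rfl⟩ := Pool.Agent.Y382.Gold.exists_coord h.rank hs a
  rw [Pool.Agent.Y382.Gold.norm_form h.rank hs, emb_val, emb_val, h1, h2]
  push_cast
  linear_combination (v : ℝ) ^ 2 * sqrt5_sq

/-- **NRM** -/
theorem nrm : S_NRM := by
  intro K _ _ σ τ h a
  rw [Ideal.absNorm_span_singleton, ← norm_val h, ← Algebra.coe_norm_int]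
  push_cast
  rw [Nat.cast_natAbs]
  push_cast
  rfl

/-- the rational integers among the rational numbers which are integral in `ℝ` -/
lemma rat_int {q : ℚ} (h : IsIntegral ℤ ((q : ℚ) : ℝ)) : ∃ n : ℤ, (n : ℚ) = q := by
  have h1 : IsIntegral ℤ q := by
    have h2 : IsIntegral ℤ (algebraMap ℚ ℝ q) := by
      rwa [eq_ratCast]
    exact (isIntegral_algebraMap_iff (algebraMap ℚ ℝ).injective).1 h2
  obtain ⟨n, hn⟩ := IsIntegrallyClosed.isIntegral_iff.1 h1
  exact ⟨n, by rw [← hn]; rfl⟩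

omit [NumberField K] in
lemma emb_integral (ρ : K →+* ℝ) (a : 𝓞 K) : IsIntegral ℤ (ρ a) :=
  (RingOfIntegers.isIntegral_coe a).map (ρ.toIntAlgHom)

lemma cmn (m n : ℤ) (φ : 𝓞 K) :
    (((m : 𝓞 K) + n * φ : 𝓞 K) : K) = (m : K) + n * (φ : K) := by simp

/-- **INT** -/
theorem int_thm : S_INT := by
  intro K _ _ σ τ h
  obtain ⟨s, hs, h1, h2⟩ := exists_root h
  let φ : 𝓞 K := ⟨(1 + s) / 2, Pool.Agent.Y382.Gold.phi_int hs⟩
  have hφ : (φ : K) = (1 + s) / 2 := rfl
  have hσ : σ φ = (1 + √5) / 2 := by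
    rw [hφ, map_div₀, map_add, map_one, h1, map_ofNat]
  have hτ : τ φ = (1 - √5) / 2 := by
    rw [hφ, map_div₀, map_add, map_one, h2, map_ofNat]
    ring
  refine ⟨φ, ?_, hσ, hτ, ?_, ?_⟩
  · apply RingOfIntegers.ext
    show (φ : K) ^ 2 = (φ : K) + 1
    rw [hφ]
    linear_combination (1 / 4 : K) * hs
  · intro a
    obtain ⟨u, v, huv⟩ := Pool.Agent.Y382.Gold.exists_coord h.rank hs (a : K)
    have hsa : σ a = u + v * √5 := by rw [huv, emb_val, h1]
    have hta : τ a = u - v * √5 := by rw [huv, emb_val, h2]; ring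
    obtain ⟨A, hA⟩ : ∃ A : ℤ, (A : ℚ) = 2 * u := by
      apply rat_int
      have e : ((2 * u : ℚ) : ℝ) = σ a + τ a := by
        rw [hsa, hta]; push_cast; ring
      rw [e]
      exact (emb_integral σ a).add (emb_integral τ a)
    obtain ⟨N, hN⟩ : ∃ N : ℤ, (N : ℚ) = u ^ 2 - 5 * v ^ 2 := by
      apply rat_int
      have e : ((u ^ 2 - 5 * v ^ 2 : ℚ) : ℝ) = σ a * τ a := by
        rw [hsa, hta]; push_cast; linear_combination (v : ℝ) ^ 2 * sqrt5_sq
      rw [e]
      exact (emb_integral σ a).mul (emb_integral τ a)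
    -- `10 v` is an integer
    obtain ⟨k, hk⟩ : ∃ k : ℤ, (k : ℚ) = 10 * v := by
      have h3 : IsIntegral ℤ (10 * v : ℚ) := by
        have h4 : (10 * v : ℚ) ^ 2 = ((5 * (A ^ 2 - 4 * N) : ℤ) : ℚ) := by
          push_cast
          rw [hA, hN]
          ring
        have h5 : IsIntegral ℤ ((10 * v : ℚ) ^ 2) := by
          rw [h4]
          exact isIntegral_algebraMap (R := ℤ) (A := ℚ) (x := 5 * (A ^ 2 - 4 * N))
        exact (IsIntegral.pow_iff (by norm_num : 0 < 2)).1 h5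
      obtain ⟨n, hn⟩ := IsIntegrallyClosed.isIntegral_iff.1 h3
      exact ⟨n, by rw [← hn]; rfl⟩
    have h5 : k ^ 2 = 5 * (A ^ 2 - 4 * N) := by
      have : (k : ℚ) ^ 2 = ((5 * (A ^ 2 - 4 * N) : ℤ) : ℚ) := by
        push_cast
        rw [hk, hA, hN]
        ring
      exact_mod_cast this
    obtain ⟨B, hB⟩ : (5 : ℤ) ∣ k := by
      have : (5 : ℤ) ∣ k ^ 2 := ⟨_, h5⟩
      exact Int.Prime.dvd_pow' (by norm_num) this
    have hBv : (B : ℚ) = 2 * v := by
      have : (5 : ℚ) * B = 10 * v := by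
        rw [← hk, hB]
        push_cast
        ring
      linarith
    have h6 : A ^ 2 - 5 * B ^ 2 = 4 * N := by
      have : (A : ℚ) ^ 2 - 5 * (B : ℚ) ^ 2 = 4 * N := by
        rw [hA, hBv, hN]
        ring
      exact_mod_cast this
    have h7 : A % 2 = B % 2 := by
      have h8 : (A - B) * (A + B) = 4 * (N + B ^ 2) := by linear_combination h6
      rcases Int.emod_two_eq_zero_or_one A with ha | ha <;>
        rcases Int.emod_two_eq_zero_or_one B with hb | hb
      · rw [ha, hb]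
      · exfalso
        obtain ⟨x, hx⟩ : ∃ x, A = 2 * x := ⟨A / 2, by omega⟩
        obtain ⟨y, hy⟩ : ∃ y, B = 2 * y + 1 := ⟨B / 2, by omega⟩
        rw [hx, hy] at h8
        have : 2 * (2 * (N + (2 * y + 1) ^ 2) - 2 * x ^ 2 + 2 * y ^ 2 + 2 * y) = -1 := by
          nlinarith
        omega
      · exfalso
        obtain ⟨x, hx⟩ : ∃ x, A = 2 * x + 1 := ⟨A / 2, by omega⟩
        obtain ⟨y, hy⟩ : ∃ y, B = 2 * y := ⟨B / 2, by omega⟩
        rw [hx, hy] at h8
        have : 2 * (2 * (N + (2 * y) ^ 2) - 2 * x ^ 2 - 2 * x + 2 * y ^ 2) = 1 := by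
          nlinarith
        omega
      · rw [ha, hb]
    refine ⟨(A - B) / 2, B, ?_⟩
    apply RingOfIntegers.ext
    rw [cmn, hφ]
    have h8 : (((A - B) / 2 : ℤ) : ℚ) = (A - B) / 2 := by
      rw [Int.cast_div (by omega) (by norm_num)]
      push_cast
      ring
    have h9 : (((A - B) / 2 : ℤ) : K) = ((u - v : ℚ) : K) := by
      have : (((A - B) / 2 : ℤ) : ℚ) = u - v := by
        rw [h8, hA, hBv]
        ring
      rw [← this]
      push_cast
      rfl
    have h10 : (B : K) = ((2 * v : ℚ) : K) := by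
      rw [← hBv]
      push_cast
      rfl
    rw [h9, h10, huv]
    push_cast
    ring
  · intro m n m' n' he
    have e1 : σ (((m : 𝓞 K) + n * φ : 𝓞 K) : K) = m + n * ((1 + √5) / 2) := by
      rw [cmn, map_add, map_mul, map_intCast, map_intCast, hσ]
    have e2 : τ (((m : 𝓞 K) + n * φ : 𝓞 K) : K) = m + n * ((1 - √5) / 2) := by
      rw [cmn, map_add, map_mul, map_intCast, map_intCast, hτ]
    have e3 : σ (((m' : 𝓞 K) + n' * φ : 𝓞 K) : K) = m' + n' * ((1 + √5) / 2) := by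
      rw [cmn, map_add, map_mul, map_intCast, map_intCast, hσ]
    have e4 : τ (((m' : 𝓞 K) + n' * φ : 𝓞 K) : K) = m' + n' * ((1 - √5) / 2) := by
      rw [cmn, map_add, map_mul, map_intCast, map_intCast, hτ]
    have f1 := congrArg (fun x : 𝓞 K => σ (x : K)) he
    have f2 := congrArg (fun x : 𝓞 K => τ (x : K)) he
    simp only [e1, e2, e3, e4] at f1 f2
    have hn : (n : ℝ) = n' := by
      have h5 : ((n : ℝ) - n') * √5 = 0 := by linarith
      have := (mul_eq_zero.1 h5).resolve_right sqrt5_pos.ne'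
      linarith
    have hn' : n = n' := by exact_mod_cast hn
    refine ⟨?_, hn'⟩
    rw [hn'] at f1
    have : (m : ℝ) = m' := by linarith
    exact_mod_cast this

/-! ### the units -/

lemma five_lt : √(5 : ℝ) < 3 := by
  rw [show (3 : ℝ) = √9 by rw [show (9 : ℝ) = 3 ^ 2 by norm_num, Real.sqrt_sq (by norm_num)]]
  exact Real.sqrt_lt_sqrt (by norm_num) (by norm_num)

lemma two_lt : 2 < √(5 : ℝ) := by
  rw [show (2 : ℝ) = √4 by rw [show (4 : ℝ) = 2 ^ 2 by norm_num, Real.sqrt_sq (by norm_num)]]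
  exact Real.sqrt_lt_sqrt (by norm_num) (by norm_num)

/-- the fundamental unit -/
lemma exists_unit (h : Gold K σ τ) : ∃ ε : (𝓞 K)ˣ, |σ ((ε : 𝓞 K) : K)| = (1 + √5) / 2 ∧
    |τ ((ε : 𝓞 K) : K)| = (√5 - 1) / 2 := by
  obtain ⟨φ, h1, h2, h3, -⟩ := int_thm K σ τ h
  refine ⟨⟨φ, φ - 1, by linear_combination h1, by linear_combination h1⟩, ?_, ?_⟩
  · show |σ (φ : K)| = _
    rw [h2, abs_of_pos]
    have := sqrt5_pos
    linarith
  · show |τ (φ : K)| = _
    rw [h3, abs_of_neg]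
    · ring
    · have := two_lt
      linarith

/-- the ratio -/
noncomputable def rt (σ τ : K →+* ℝ) (x : K) : ℝ := |σ x| / |τ x|

omit [NumberField K] in
lemma rt_mul (x y : K) : rt σ τ (x * y) = rt σ τ x * rt σ τ y := by
  unfold rt
  rw [map_mul, map_mul, abs_mul, abs_mul, mul_div_mul_comm]

omit [NumberField K] in
lemma rt_zpow (x : K) (n : ℤ) : rt σ τ (x ^ n) = rt σ τ x ^ n := by
  unfold rt
  rw [map_zpow₀, map_zpow₀, abs_zpow, abs_zpow, div_zpow]

omit [NumberField K] in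
lemma emb_pos (ρ : K →+* ℝ) {x : K} (hx : x ≠ 0) : 0 < |ρ x| :=
  abs_pos.2 ((map_ne_zero ρ).2 hx)

lemma coe_ne {b : 𝓞 K} (hb : b ≠ 0) : (b : K) ≠ 0 := fun h => hb (RingOfIntegers.coe_eq_zero_iff.1 h)

/-- the cone in terms of the ratio -/
lemma cone_iff {x : K} (hx : x ≠ 0) : (|τ x| ≤ |σ x| ∧ |σ x| < (3 + √5) / 2 * |τ x|) ↔
    (1 ≤ rt σ τ x ∧ rt σ τ x < (3 + √5) / 2) := by
  unfold rt
  have h := emb_pos τ hx
  rw [le_div_iff₀ h, div_lt_iff₀ h, one_mul]

lemma val_mul (u b : 𝓞 K) : ((u * b : 𝓞 K) : K) = (u : K) * (b : K) := by simp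

lemma unit_coe_zpow (ε : (𝓞 K)ˣ) (n : ℤ) :
    ((((ε ^ n : (𝓞 K)ˣ) : 𝓞 K)) : K) = ((ε : 𝓞 K) : K) ^ n := by
  have h1 : ∀ u : (𝓞 K)ˣ, ((u : 𝓞 K) : K) = ((Units.map (algebraMap (𝓞 K) K : 𝓞 K →* K) u : Kˣ) : K) :=
    fun u => rfl
  rw [h1, h1, map_zpow, Units.val_zpow_eq_zpow_val]

/-- **CONE** -/
theorem cone : S_CONE := by
  intro K _ _ σ τ h
  have hY : (1 : ℝ) < (3 + √5) / 2 := by
    have := sqrt5_pos
    linarith
  have h5 := sqrt5_sq
  have h5p := sqrt5_pos
  have h52 := two_lt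
  obtain ⟨φ, hφ1, hφ2, hφ3, hφ4, -⟩ := int_thm K σ τ h
  constructor
  · intro b hb
    obtain ⟨ε, hε1, hε2⟩ := exists_unit h
    have hbK := coe_ne hb
    have hrt : rt σ τ ((ε : 𝓞 K) : K) = (3 + √5) / 2 := by
      unfold rt
      rw [hε1, hε2, div_eq_iff (by linarith)]
      nlinarith
    have hr0 : 0 < rt σ τ (b : K) := div_pos (emb_pos σ hbK) (emb_pos τ hbK)
    obtain ⟨n, hn1, hn2⟩ := exists_mem_Ico_zpow hr0 hY
    refine ⟨ε ^ (-n), ?_⟩
    have hεK : ((ε : 𝓞 K) : K) ≠ 0 := coe_ne ε.ne_zero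
    have hne : ((((ε ^ (-n) : (𝓞 K)ˣ) : 𝓞 K) * b : 𝓞 K) : K) ≠ 0 :=
      coe_ne (mul_ne_zero (Units.ne_zero _) hb)
    rw [cone_iff hne, val_mul, rt_mul, unit_coe_zpow, rt_zpow, hrt]
    have hYn : 0 < ((3 + √5) / 2) ^ n := zpow_pos (by linarith) n
    rw [zpow_neg]
    constructor
    · rw [inv_mul_eq_div, le_div_iff₀ hYn, one_mul]
      exact hn1
    · rw [inv_mul_eq_div, div_lt_iff₀ hYn]
      rw [zpow_add₀ (by linarith), zpow_one] at hn2
      linarith
  · intro b u hb c1 c2 c3 c4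
    have hbK := coe_ne hb
    have huK : ((u : 𝓞 K) : K) ≠ 0 := coe_ne u.ne_zero
    have hne : (((u : 𝓞 K) * b : 𝓞 K) : K) ≠ 0 := coe_ne (mul_ne_zero u.ne_zero hb)
    obtain ⟨d1, d2⟩ := (cone_iff hbK).1 ⟨c1, c2⟩
    obtain ⟨d3, d4⟩ := (cone_iff hne).1 ⟨c3, c4⟩
    rw [val_mul, rt_mul] at d3 d4
    -- the norm of the unit
    have hN : |σ ((u : 𝓞 K) : K)| * |τ ((u : 𝓞 K) : K)| = 1 := by
      rw [← abs_mul, ← nrm K σ τ h, Ideal.span_singleton_eq_top.2 u.isUnit]
      simp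
    set x := |σ ((u : 𝓞 K) : K)| with hx
    set y := |τ ((u : 𝓞 K) : K)| with hy
    have hx0 : 0 < x := emb_pos σ huK
    have hy0 : 0 < y := emb_pos τ huK
    have hru : rt σ τ ((u : 𝓞 K) : K) = x / y := rfl
    rw [hru] at d3 d4
    have e1 : x / y = x ^ 2 := by
      rw [div_eq_iff hy0.ne']
      linear_combination -x * hN
    rw [e1] at d3 d4
    have hr0 : 0 < rt σ τ (b : K) := by linarith
    -- `x² < φ²` and `y² < φ²`
    have f1 : x ^ 2 < (3 + √5) / 2 := by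
      have : x ^ 2 * 1 ≤ x ^ 2 * rt σ τ (b : K) := mul_le_mul_of_nonneg_left d1 (by positivity)
      linarith
    have f2 : y ^ 2 < (3 + √5) / 2 := by
      have e2 : x ^ 2 * y ^ 2 = 1 := by
        rw [← mul_pow, hN, one_pow]
      have g1 : 1 < x ^ 2 * ((3 + √5) / 2) := by
        have : x ^ 2 * rt σ τ (b : K) < x ^ 2 * ((3 + √5) / 2) :=
          mul_lt_mul_of_pos_left d2 (by positivity)
        linarith
      have g2 : x ^ 2 * y ^ 2 < x ^ 2 * ((3 + √5) / 2) := by rw [e2]; exact g1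
      exact lt_of_mul_lt_mul_left g2 (by positivity)
    have e3 : ((1 + √5) / 2) ^ 2 = (3 + √5) / 2 := by nlinarith
    have f3 : x < (1 + √5) / 2 := by
      rw [← e3] at f1
      exact lt_of_pow_lt_pow_left₀ 2 (by linarith) f1
    have f4 : y < (1 + √5) / 2 := by
      rw [← e3] at f2
      exact lt_of_pow_lt_pow_left₀ 2 (by linarith) f2
    have f5 : x + y < √5 := by
      have g : 0 < ((1 + √5) / 2 - x) * ((1 + √5) / 2 - y) :=
        mul_pos (by linarith) (by linarith)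
      have g2 : ((1 + √5) / 2 - x) * ((1 + √5) / 2 - y) =
          (5 + √5) / 2 - (1 + √5) / 2 * (x + y) := by
        linear_combination hN + e3
      rw [g2] at g
      have g3 : (1 + √5) / 2 * √5 = (5 + √5) / 2 := by nlinarith
      have g4 : (1 + √5) / 2 * (x + y) < (1 + √5) / 2 * √5 := by rw [g3]; linarith
      exact lt_of_mul_lt_mul_left g4 (by linarith)
    obtain ⟨m, n, hmn⟩ := hφ4 (u : 𝓞 K)
    have hs : σ ((u : 𝓞 K) : K) = m + n * ((1 + √5) / 2) := by
      rw [hmn, cmn, map_add, map_mul, map_intCast, map_intCast, hφ2]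
    have ht : τ ((u : 𝓞 K) : K) = m + n * ((1 - √5) / 2) := by
      rw [hmn, cmn, map_add, map_mul, map_intCast, map_intCast, hφ3]
    have hn0 : n = 0 := by
      by_contra hn
      have g1 : (1 : ℝ) ≤ |(n : ℝ)| := by exact_mod_cast Int.one_le_abs hn
      have g2 : |(n : ℝ)| * √5 ≤ x + y := by
        have g3 : (n : ℝ) * √5 = σ ((u : 𝓞 K) : K) - τ ((u : 𝓞 K) : K) := by
          rw [hs, ht]; ring
        have g4 : |(n : ℝ)| * √5 = |(n : ℝ) * √5| := by rw [abs_mul, abs_of_pos h5p]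
        rw [g4, g3]
        exact abs_sub _ _
      nlinarith
    rw [hn0, Int.cast_zero, zero_mul, add_zero] at hs ht
    have hm : |(m : ℝ)| * |(m : ℝ)| = 1 := by
      rw [hx, hy, hs, ht] at hN
      exact hN
    have hm2 : m * m = 1 := by
      have : (m : ℝ) * m = 1 := by
        rw [← abs_mul, abs_of_nonneg (mul_self_nonneg _)] at hm
        exact hm
      exact_mod_cast this
    have hu : (u : 𝓞 K) = m := by
      rw [hmn, hn0, Int.cast_zero, zero_mul, add_zero]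
    rcases Int.isUnit_iff.1 (IsUnit.of_mul_eq_one _ hm2) with hm3 | hm3
    · left
      apply Units.ext
      rw [hu, hm3]
      simp
    · right
      apply Units.ext
      rw [hu, hm3]
      simp

end Pool.Agent.P8H52.JG
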