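import Pool.Agent.P8H52.JG.Gold

/-!
# Packages BOX, TL
-/

set_option autoImplicit false
set_option linter.unusedSectionVars false

namespace Pool.Agent.P8H52.JG

open NumberField IsDedekindDomain MeasureTheory Filter Topology
open Pool.Agent.P8H82.JG

variable {K : Type} [Field K] [NumberField K] {σ τ : K →+* ℝ}

/-- the nonzero elements of an ideal in a box -/
def bx (σ τ : K →+* ℝ) (𝔫 : Ideal (𝓞 K)) (B : ℝ) : Set (𝓞 K) :=
  {x : 𝓞 K | x ∈ 𝔫 ∧ x ≠ 0 ∧ |σ x| ≤ B ∧ |τ x| ≤ B}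

lemma norm_ge (h : Gold K σ τ) {𝔫 : Ideal (𝓞 K)} {x : 𝓞 K} (hx : x ∈ 𝔫) (hx0 : x ≠ 0) :
    (Ideal.absNorm 𝔫 : ℝ) ≤ |σ x| * |τ x| := by
  rw [← abs_mul, ← nrm K σ τ h]
  have h1 : Ideal.absNorm 𝔫 ∣ Ideal.absNorm (Ideal.span {x}) :=
    Ideal.absNorm_dvd_absNorm_of_le ((Ideal.span_singleton_le_iff_mem 𝔫).2 hx)
  have h2 : Ideal.absNorm (Ideal.span {x}) ≠ 0 := by
    rw [Ne, Ideal.absNorm_eq_zero_iff, Ideal.span_singleton_eq_bot]
    exact hx0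
  exact_mod_cast Nat.le_of_dvd (Nat.pos_of_ne_zero h2) h1

lemma box_aux (h : Gold K σ τ) (𝔫 : Ideal (𝓞 K)) (B : ℝ) (h𝔫 : 𝔫 ≠ ⊥) (hB : 0 < B) :
    (bx σ τ 𝔫 B).Finite ∧
    (((bx σ τ 𝔫 B).ncard : ℕ) : ℝ) ≤ 16 * B ^ 2 / (Ideal.absNorm 𝔫 : ℝ) := by
  classical
  have hN0 : Ideal.absNorm 𝔫 ≠ 0 := by
    rw [Ne, Ideal.absNorm_eq_zero_iff]
    exact h𝔫
  have hN : (0 : ℝ) < Ideal.absNorm 𝔫 := by exact_mod_cast Nat.pos_of_ne_zero hN0
  set r : ℝ := √(Ideal.absNorm 𝔫) with hr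
  have hr0 : 0 < r := Real.sqrt_pos.2 hN
  have hr2 : r * r = Ideal.absNorm 𝔫 := Real.mul_self_sqrt hN.le
  set β : ℝ := B / r with hβ
  have hβ0 : 0 < β := div_pos hB hr0
  set c : 𝓞 K → ℤ × ℤ := fun x => (⌊σ x / r⌋, ⌊τ x / r⌋) with hc
  set T : Finset (ℤ × ℤ) := Finset.Icc ⌊-β⌋ ⌊β⌋ ×ˢ Finset.Icc ⌊-β⌋ ⌊β⌋ with hT
  have hbd : ∀ ρ : K →+* ℝ, ∀ x : 𝓞 K, |ρ x| ≤ B → ⌊ρ x / r⌋ ∈ Finset.Icc ⌊-β⌋ ⌊β⌋ := by
    intro ρ x hx
    rw [abs_le] at hx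
    rw [Finset.mem_Icc]
    constructor
    · apply Int.floor_le_floor
      rw [hβ, ← neg_div]
      exact div_le_div_of_nonneg_right hx.1 hr0.le
    · apply Int.floor_le_floor
      exact div_le_div_of_nonneg_right hx.2 hr0.le
  have hmap : ∀ x ∈ bx σ τ 𝔫 B, c x ∈ (T : Set (ℤ × ℤ)) := by
    intro x hx
    rw [Finset.mem_coe, hT, Finset.mem_product]
    exact ⟨hbd σ x hx.2.2.1, hbd τ x hx.2.2.2⟩
  have hinj : Set.InjOn c (bx σ τ 𝔫 B) := by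
    intro x hx y hy hxy
    by_contra hne
    have h1 : x - y ∈ 𝔫 := 𝔫.sub_mem hx.1 hy.1
    have h2 := norm_ge h h1 (sub_ne_zero.2 hne)
    have h3 : ∀ ρ : K →+* ℝ, ⌊ρ x / r⌋ = ⌊ρ y / r⌋ → |ρ ((x - y : 𝓞 K) : K)| < r := by
      intro ρ hρ
      have h4 := Int.abs_sub_lt_one_of_floor_eq_floor hρ
      have h5 : ρ ((x - y : 𝓞 K) : K) = (ρ x / r - ρ y / r) * r := by
        have : ((x - y : 𝓞 K) : K) = (x : K) - y := by simp
        rw [this, map_sub]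
        field_simp
      rw [h5, abs_mul, abs_of_pos hr0]
      exact mul_lt_of_lt_one_left hr0 h4
    have h4 := h3 σ (congrArg Prod.fst hxy)
    have h5 := h3 τ (congrArg Prod.snd hxy)
    have h6 : |σ ((x - y : 𝓞 K) : K)| * |τ ((x - y : 𝓞 K) : K)| < r * r :=
      mul_lt_mul'' h4 h5 (abs_nonneg _) (abs_nonneg _)
    linarith
  refine ⟨Set.Finite.of_injOn hmap hinj T.finite_toSet, ?_⟩
  rcases (bx σ τ 𝔫 B).eq_empty_or_nonempty with he | ⟨x, hx⟩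
  · rw [he, Set.ncard_empty]
    push_cast
    positivity
  · have h1 := norm_ge h hx.1 hx.2.1
    have h2 : |σ x| * |τ x| ≤ B * B :=
      mul_le_mul hx.2.2.1 hx.2.2.2 (abs_nonneg _) hB.le
    have h3 : r ≤ B := by
      by_contra hlt
      push Not at hlt
      have : B * B < r * r := mul_lt_mul'' hlt hlt hB.le hB.le
      linarith
    have h4 : 1 ≤ β := by
      rw [hβ, le_div_iff₀ hr0, one_mul]
      exact h3
    have h5 := Set.ncard_le_ncard_of_injOn c hmap hinj T.finite_toSet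
    rw [Set.ncard_coe_finset, hT, Finset.card_product, Int.card_Icc] at h5
    have h6 : (((⌊β⌋ + 1 - ⌊-β⌋).toNat : ℕ) : ℝ) ≤ 4 * β := by
      have h7 : 0 ≤ ⌊β⌋ + 1 - ⌊-β⌋ := by
        have : ⌊-β⌋ ≤ ⌊β⌋ := Int.floor_le_floor (by linarith)
        omega
      have h8 : (((⌊β⌋ + 1 - ⌊-β⌋).toNat : ℕ) : ℝ) = ((⌊β⌋ + 1 - ⌊-β⌋ : ℤ) : ℝ) := by
        have := Int.toNat_of_nonneg h7
        exact_mod_cast this
      rw [h8]
      push_cast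
      have h9 := Int.floor_le β
      have h10 := Int.lt_floor_add_one (-β)
      linarith
    calc (((bx σ τ 𝔫 B).ncard : ℕ) : ℝ) ≤
          ((((⌊β⌋ + 1 - ⌊-β⌋).toNat * (⌊β⌋ + 1 - ⌊-β⌋).toNat : ℕ)) : ℝ) := by exact_mod_cast h5
      _ = (((⌊β⌋ + 1 - ⌊-β⌋).toNat : ℕ) : ℝ) * (((⌊β⌋ + 1 - ⌊-β⌋).toNat : ℕ) : ℝ) := by
          push_cast; rfl
      _ ≤ (4 * β) * (4 * β) := mul_le_mul h6 h6 (by positivity) (by positivity)
      _ = 16 * B ^ 2 / (Ideal.absNorm 𝔫 : ℝ) := by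
          rw [hβ, ← hr2]
          field_simp
          ring

/-- **BOX** -/
theorem box : S_BOX := fun _ _ _ _ _ h 𝔫 B h𝔫 hB => box_aux h 𝔫 B h𝔫 hB

/-! ### the tail of the sieve -/

lemma nP_pos (P : HeightOneSpectrum (𝓞 K)) : 0 < nP P := by
  unfold nP
  have : Ideal.absNorm P.asIdeal ≠ 0 := by
    rw [Ne, Ideal.absNorm_eq_zero_iff]
    exact P.ne_bot
  exact_mod_cast Nat.pos_of_ne_zero this

/-- the exceptional pairs at `P` -/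
lemma not_cnd {P : HeightOneSpectrum (𝓞 K)} {a b : 𝓞 K} (h : ¬ Cnd P 0 a b) :
    (a ∈ P.asIdeal ∧ b ∈ P.asIdeal) ∨ a ∈ P.asIdeal ^ 2 ∨ b ∈ P.asIdeal ^ 2 ∨
      a + b ∈ P.asIdeal ^ 2 := by
  have hP := P.isPrime
  by_cases h1 : a ∈ P.asIdeal ∧ b ∈ P.asIdeal
  · exact Or.inl h1
  right
  have h2 : a * b * (a + b) ∈ P.asIdeal ^ 2 := by
    by_contra h2
    exact h ⟨h1, h2, fun h3 => absurd rfl h3⟩
  by_cases ha : a ∈ P.asIdeal
  · left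
    have hb : b ∉ P.asIdeal := fun hb => h1 ⟨ha, hb⟩
    have hab : a + b ∉ P.asIdeal := fun h3 => hb ((P.asIdeal.add_mem_iff_right ha).1 h3)
    have h3 : (b * (a + b)) * a ∈ P.asIdeal ^ 2 := by
      have : (b * (a + b)) * a = a * b * (a + b) := by ring
      rw [this]; exact h2
    rcases Ideal.IsPrime.mul_mem_pow P.asIdeal h3 with h4 | h4
    · rcases hP.mem_or_mem h4 with h5 | h5
      · exact absurd h5 hb
      · exact absurd h5 hab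
    · exact h4
  · by_cases hb : b ∈ P.asIdeal
    · right; left
      have hab : a + b ∉ P.asIdeal := fun h3 => ha ((P.asIdeal.add_mem_iff_left hb).1 h3)
      have h3 : (a * (a + b)) * b ∈ P.asIdeal ^ 2 := by
        have : (a * (a + b)) * b = a * b * (a + b) := by ring
        rw [this]; exact h2
      rcases Ideal.IsPrime.mul_mem_pow P.asIdeal h3 with h4 | h4
      · rcases hP.mem_or_mem h4 with h5 | h5
        · exact absurd h5 ha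
        · exact absurd h5 hab
      · exact h4
    · right; right
      rcases Ideal.IsPrime.mul_mem_pow P.asIdeal h2 with h4 | h4
      · rcases hP.mem_or_mem h4 with h5 | h5
        · exact absurd h5 ha
        · exact absurd h5 hb
      · exact h4

/-- the pairs in the box -/
def prs (σ τ : K →+* ℝ) (L : ℝ) : Set (𝓞 K × 𝓞 K) :=
  {q : 𝓞 K × 𝓞 K | q.1 * q.2 * (q.1 + q.2) ≠ 0 ∧ |σ q.1| ≤ L ∧ |τ q.1| ≤ L ∧
    |σ q.2| ≤ L ∧ |τ q.2| ≤ L}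

lemma prs_sub (L : ℝ) : prs σ τ L ⊆ bx σ τ ⊤ L ×ˢ bx σ τ ⊤ L := by
  intro q hq
  obtain ⟨h0, h1, h2, h3, h4⟩ := hq
  refine ⟨⟨trivial, ?_, h1, h2⟩, ⟨trivial, ?_, h3, h4⟩⟩
  · intro h
    apply h0
    rw [h]; ring
  · intro h
    apply h0
    rw [h]; ring

lemma prs_P (h : Gold K σ τ) {L : ℝ} (hL : 0 < L) (P : HeightOneSpectrum (𝓞 K)) :
    (({q ∈ prs σ τ L | ¬ Cnd P 0 q.1 q.2}.ncard : ℕ) : ℝ) ≤ 1792 * L ^ 4 / nP P ^ 2 := by
  have hq0 := nP_pos P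
  have hP2 : P.asIdeal ^ 2 ≠ ⊥ := pow_ne_zero 2 P.ne_bot
  have htop : (⊤ : Ideal (𝓞 K)) ≠ ⊥ := top_ne_bot
  have n2 : (Ideal.absNorm (P.asIdeal ^ 2) : ℝ) = nP P ^ 2 := by
    unfold nP
    rw [map_pow]
    push_cast
    rfl
  have n0 : (Ideal.absNorm (⊤ : Ideal (𝓞 K)) : ℝ) = 1 := by
    rw [Ideal.absNorm_top]; simp
  obtain ⟨f1, c1⟩ := box_aux h P.asIdeal L P.ne_bot hL
  obtain ⟨f2, c2⟩ := box_aux h (P.asIdeal ^ 2) L hP2 hL
  obtain ⟨f3, c3⟩ := box_aux h ⊤ L htop hL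
  obtain ⟨f4, c4⟩ := box_aux h (P.asIdeal ^ 2) (2 * L) hP2 (by linarith)
  rw [n2] at c2 c4
  rw [n0, div_one] at c3
  set U1 := bx σ τ P.asIdeal L ×ˢ bx σ τ P.asIdeal L with hU1
  set U2 := bx σ τ (P.asIdeal ^ 2) L ×ˢ bx σ τ ⊤ L with hU2
  set U3 := bx σ τ ⊤ L ×ˢ bx σ τ (P.asIdeal ^ 2) L with hU3
  set U4 := (fun q : 𝓞 K × 𝓞 K => (q.1 - q.2, q.2)) ''
    (bx σ τ (P.asIdeal ^ 2) (2 * L) ×ˢ bx σ τ ⊤ L) with hU4
  have hsub : {q ∈ prs σ τ L | ¬ Cnd P 0 q.1 q.2} ⊆ ((U1 ∪ U2) ∪ U3) ∪ U4 := by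
    intro q hq
    obtain ⟨⟨hn, g1, g2, g3, g4⟩, hc⟩ := hq
    have ha0 : q.1 ≠ 0 := by
      intro h0; apply hn; rw [h0]; ring
    have hb0 : q.2 ≠ 0 := by
      intro h0; apply hn; rw [h0]; ring
    have hab0 : q.1 + q.2 ≠ 0 := by
      intro h0; apply hn; rw [h0]; ring
    rcases not_cnd hc with ⟨ha, hb⟩ | ha | hb | hab
    · exact Or.inl (Or.inl (Or.inl ⟨⟨ha, ha0, g1, g2⟩, ⟨hb, hb0, g3, g4⟩⟩))
    · exact Or.inl (Or.inl (Or.inr ⟨⟨ha, ha0, g1, g2⟩, ⟨trivial, hb0, g3, g4⟩⟩))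
    · exact Or.inl (Or.inr ⟨⟨trivial, ha0, g1, g2⟩, ⟨hb, hb0, g3, g4⟩⟩)
    · right
      refine ⟨(q.1 + q.2, q.2), ⟨⟨hab, hab0, ?_, ?_⟩, ⟨trivial, hb0, g3, g4⟩⟩, ?_⟩
      · have : ((q.1 + q.2 : 𝓞 K) : K) = (q.1 : K) + q.2 := by simp
        show |σ ((q.1 + q.2 : 𝓞 K) : K)| ≤ 2 * L
        rw [this, map_add]
        exact (abs_add_le _ _).trans (by linarith)
      · have : ((q.1 + q.2 : 𝓞 K) : K) = (q.1 : K) + q.2 := by simp
        show |τ ((q.1 + q.2 : 𝓞 K) : K)| ≤ 2 * L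
        rw [this, map_add]
        exact (abs_add_le _ _).trans (by linarith)
      · simp
  have F1 : U1.Finite := f1.prod f1
  have F2 : U2.Finite := f2.prod f3
  have F3 : U3.Finite := f3.prod f2
  have F4' : (bx σ τ (P.asIdeal ^ 2) (2 * L) ×ˢ bx σ τ ⊤ L).Finite := f4.prod f3
  have F4 : U4.Finite := F4'.image _
  have e1 : ((U1.ncard : ℕ) : ℝ) ≤ 256 * L ^ 4 / nP P ^ 2 := by
    rw [hU1, Set.ncard_prod]
    push_cast
    calc _ ≤ (16 * L ^ 2 / (Ideal.absNorm P.asIdeal : ℝ)) *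
          (16 * L ^ 2 / (Ideal.absNorm P.asIdeal : ℝ)) :=
          mul_le_mul c1 c1 (by positivity) (by positivity)
      _ = _ := by
        show (16 * L ^ 2 / nP P) * (16 * L ^ 2 / nP P) = _
        field_simp
        ring
  have e2 : ((U2.ncard : ℕ) : ℝ) ≤ 256 * L ^ 4 / nP P ^ 2 := by
    rw [hU2, Set.ncard_prod]
    push_cast
    calc _ ≤ (16 * L ^ 2 / nP P ^ 2) * (16 * L ^ 2) :=
          mul_le_mul c2 c3 (by positivity) (by positivity)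
      _ = _ := by
        field_simp
        ring
  have e3 : ((U3.ncard : ℕ) : ℝ) ≤ 256 * L ^ 4 / nP P ^ 2 := by
    rw [hU3, Set.ncard_prod]
    push_cast
    calc _ ≤ (16 * L ^ 2) * (16 * L ^ 2 / nP P ^ 2) :=
          mul_le_mul c3 c2 (by positivity) (by positivity)
      _ = _ := by
        field_simp
        ring
  have e4 : ((U4.ncard : ℕ) : ℝ) ≤ 1024 * L ^ 4 / nP P ^ 2 := by
    have h5 : U4.ncard ≤ (bx σ τ (P.asIdeal ^ 2) (2 * L) ×ˢ bx σ τ ⊤ L).ncard :=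
      Set.ncard_image_le F4'
    rw [Set.ncard_prod] at h5
    calc ((U4.ncard : ℕ) : ℝ) ≤ (((bx σ τ (P.asIdeal ^ 2) (2 * L)).ncard : ℕ) : ℝ) *
          (((bx σ τ ⊤ L).ncard : ℕ) : ℝ) := by exact_mod_cast h5
      _ ≤ (16 * (2 * L) ^ 2 / nP P ^ 2) * (16 * L ^ 2) :=
          mul_le_mul c4 c3 (by positivity) (by positivity)
      _ = _ := by
        field_simp
        ring
  have h6 := Set.ncard_le_ncard hsub (((F1.union F2).union F3).union F4)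
  have h7 : ((((U1 ∪ U2) ∪ U3) ∪ U4).ncard) ≤ U1.ncard + U2.ncard + U3.ncard + U4.ncard := by
    have g1 := Set.ncard_union_le U1 U2
    have g2 := Set.ncard_union_le (U1 ∪ U2) U3
    have g3 := Set.ncard_union_le ((U1 ∪ U2) ∪ U3) U4
    omega
  have h8 : (({q ∈ prs σ τ L | ¬ Cnd P 0 q.1 q.2}.ncard : ℕ) : ℝ) ≤
      (U1.ncard : ℝ) + U2.ncard + U3.ncard + U4.ncard := by exact_mod_cast h6.trans h7
  have h9 : 1792 * L ^ 4 / nP P ^ 2 = 256 * L ^ 4 / nP P ^ 2 + 256 * L ^ 4 / nP P ^ 2 +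
      256 * L ^ 4 / nP P ^ 2 + 1024 * L ^ 4 / nP P ^ 2 := by ring
  rw [h9]
  linarith

/-- **TL** -/
theorem tl : S_SM → S_TL := by
  intro hsm K _ _ σ τ h R hR
  classical
  refine ⟨1792 * R ^ 4, by positivity, fun Z l hl => ?_⟩
  have hL : 0 < R * l := by positivity
  set A := {q : 𝓞 K × 𝓞 K | q.1 * q.2 * (q.1 + q.2) ≠ 0 ∧ |σ q.1| ≤ R * l ∧ |τ q.1| ≤ R * l ∧
    |σ q.2| ≤ R * l ∧ |τ q.2| ≤ R * l ∧ ∃ P, P ∉ Z ∧ ¬ Cnd P 0 q.1 q.2} with hA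
  have hf3 := (box_aux h ⊤ (R * l) top_ne_bot hL).1
  have hprs : (prs σ τ (R * l)).Finite := (hf3.prod hf3).subset (prs_sub _)
  have hAsub : A ⊆ prs σ τ (R * l) := fun q hq => ⟨hq.1, hq.2.1, hq.2.2.1, hq.2.2.2.1, hq.2.2.2.2.1⟩
  have hAf : A.Finite := hprs.subset hAsub
  refine ⟨hAf, ?_⟩
  have hex : ∀ q : 𝓞 K × 𝓞 K, q ∈ A → ∃ P : {P : HeightOneSpectrum (𝓞 K) // P ∉ Z},
      ¬ Cnd P.1 0 q.1 q.2 := fun q hq => by
    obtain ⟨P, hP, hc⟩ := hq.2.2.2.2.2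
    exact ⟨⟨P, hP⟩, hc⟩
  rcases A.eq_empty_or_nonempty with he | ⟨q0, hq0⟩
  · rw [he, Set.ncard_empty]
    push_cast
    apply mul_nonneg (by positivity)
    exact tsum_nonneg fun P => by positivity
  obtain ⟨P0, -⟩ := hex q0 hq0
  choose pr hpr using (fun q : 𝓞 K × 𝓞 K => show ∃ P : {P : HeightOneSpectrum (𝓞 K) // P ∉ Z},
      (q ∈ A → ¬ Cnd P.1 0 q.1 q.2) from by
    by_cases hq : q ∈ A
    · obtain ⟨P, hP⟩ := hex q hq
      exact ⟨P, fun _ => hP⟩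
    · exact ⟨P0, fun hq' => absurd hq' hq⟩)
  set T : Finset {P : HeightOneSpectrum (𝓞 K) // P ∉ Z} := hAf.toFinset.image pr with hT
  have hPf : ∀ P : HeightOneSpectrum (𝓞 K), {q ∈ prs σ τ (R * l) | ¬ Cnd P 0 q.1 q.2}.Finite :=
    fun P => hprs.subset fun q hq => hq.1
  have hcov : hAf.toFinset ⊆ T.biUnion fun P => (hPf P.1).toFinset := by
    intro q hq
    have hq' := hAf.mem_toFinset.1 hq
    rw [Finset.mem_biUnion]
    refine ⟨pr q, Finset.mem_image_of_mem _ hq, ?_⟩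
    rw [Set.Finite.mem_toFinset]
    exact ⟨hAsub hq', hpr q hq'⟩
  have hsum : Summable fun P : {P : HeightOneSpectrum (𝓞 K) // P ∉ Z} => 1 / nP P.1 ^ 2 :=
    (hsm K).comp_injective Subtype.val_injective
  rw [Set.ncard_eq_toFinset_card A hAf]
  calc ((hAf.toFinset.card : ℕ) : ℝ) ≤ ((∑ P ∈ T, (hPf P.1).toFinset.card : ℕ) : ℝ) := by
        exact_mod_cast (Finset.card_le_card hcov).trans Finset.card_biUnion_le
    _ = ∑ P ∈ T, (((hPf P.1).toFinset.card : ℕ) : ℝ) := by push_cast; rfl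
    _ ≤ ∑ P ∈ T, 1792 * (R * l) ^ 4 / nP P.1 ^ 2 := by
        refine Finset.sum_le_sum fun P _ => ?_
        rw [← Set.ncard_eq_toFinset_card _ (hPf P.1)]
        exact prs_P h hL P.1
    _ = 1792 * R ^ 4 * l ^ 4 * ∑ P ∈ T, 1 / nP P.1 ^ 2 := by
        rw [Finset.mul_sum]
        refine Finset.sum_congr rfl fun P _ => ?_
        ring
    _ ≤ _ := by
        apply mul_le_mul_of_nonneg_left _ (by positivity)
        exact hsum.sum_le_tsum T fun P _ => by positivity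

end Pool.Agent.P8H52.JG
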